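import Pool.Agent.GBS.StmtsB

/-!
# GBS, row RDK: curvature of the round cylinder in a frame
-/

noncomputable section

open scoped ContDiff Topology RealInnerProductSpace
set_option maxSynthPendingDepth 3
open Set MeasureTheory Matrix

namespace Pool.Agent.GBS.H70

open Pool.Agent.RF Pool.Agent.MVS

theorem rdk : RdkStmt := by
  intro x hx F hF a b c d
  obtain ⟨h1, h2⟩ := hF
  have h2' : ∀ i j, (‖x‖ ^ 2)⁻¹ * (⟪F i, F j⟫ : ℝ) = if i = j then 1 else 0 := by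
    intro i j
    have := h2 i j
    simpa [Pool.Agent.MVS.H38.rG, del_apply] using this
  unfold Kf
  rw [Pool.Agent.RF.H38.round_riem (G := Pool.Agent.MVS.H38.rG (Fin 5))
    Pool.Agent.MVS.H38.om_open (Subset.refl _) (fun _ _ => rfl) hx (h1 a) (h1 b) (h1 c)]
  have e : Pool.Agent.MVS.H38.rG (Fin 5) x
      ((‖x‖ ^ 2)⁻¹ • ((⟪F b, F c⟫ : ℝ) • F a - (⟪F a, F c⟫ : ℝ) • F b)) (F d) =
      ((‖x‖ ^ 2)⁻¹ * (⟪F b, F c⟫ : ℝ)) * ((‖x‖ ^ 2)⁻¹ * (⟪F a, F d⟫ : ℝ)) -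
        ((‖x‖ ^ 2)⁻¹ * (⟪F a, F c⟫ : ℝ)) * ((‖x‖ ^ 2)⁻¹ * (⟪F b, F d⟫ : ℝ)) := by
    unfold Pool.Agent.MVS.H38.rG
    simp only [_root_.smul_apply, del_apply, smul_eq_mul, inner_smul_left, inner_sub_left,
      conj_trivial]
    ring
  rw [e, h2', h2', h2', h2']

end Pool.Agent.GBS.H70
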